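import Mathlib

/-!
# The `(x, y)` edge-removal process: definitions
-/

namespace Q299.Dag

open Finset

/-- The edges of the complete task-dependency graph on `n` vertices. -/
def complete (n : ℕ) : Finset (Fin n × Fin n) := univ.filter (fun e => e.1 < e.2)

/-- Number of initial vertices (in-degree zero). -/
def initials {n : ℕ} (G : Finset (Fin n × Fin n)) : ℕ :=
  (univ.filter (fun v : Fin n => ∀ u, (u, v) ∉ G)).card

/-- Number of terminal vertices (out-degree zero). -/
def terminals {n : ℕ} (G : Finset (Fin n × Fin n)) : ℕ :=
  (univ.filter (fun v : Fin n => ∀ w, (v, w) ∉ G)).card

variable {α : Type} [DecidableEq α]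

/-- The present edges whose removal leaves `I ≤ x` and `T ≤ y`. -/
def removable (I T : Finset α → ℕ) (x y : ℕ) (G : Finset α) : Finset α :=
  G.filter (fun e => I (G.erase e) ≤ x ∧ T (G.erase e) ≤ y)

open Classical in
/-- The probability that the removal process started at `G` stops at a graph with the property `Q`.
At each step an edge chosen uniformly among the currently removable ones is removed, until there
is none. -/
noncomputable def stopProb (I T : Finset α → ℕ) (x y : ℕ) (Q : Finset α → Prop) (G : Finset α) : ℝ :=
  if (removable I T x y G).Nonempty then
    (∑ e ∈ (removable I T x y G).attach, stopProb I T x y Q (G.erase e.1)) /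
      ((removable I T x y G).card : ℝ)
  else if Q G then 1 else 0
termination_by G.card
decreasing_by
  exact card_erase_lt_of_mem (mem_of_mem_filter _ e.2)

/-- `r_{x,y,n}`: the probability that the `(x, y)` edge-removal process on `n` vertices, started at
the complete task-dependency graph, stops at an `(x, y)` task-dependency graph. -/
noncomputable def r (x y n : ℕ) : ℝ :=
  stopProb initials terminals x y (fun G => initials G = x ∧ terminals G = y) (complete n)

end Q299.Dag
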