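import Pool.Agent.Q299.Dag.Defs

/-!
# The `(x, y)` edge-removal process: proofs
-/

namespace Q299.Dag

open Finset

variable {α : Type} [DecidableEq α] {I T : Finset α → ℕ} {x y : ℕ} {Q : Finset α → Prop}

lemma stop_of_none {G : Finset α} (h : ¬ (removable I T x y G).Nonempty) [Decidable (Q G)] :
    stopProb I T x y Q G = if Q G then 1 else 0 := by
  rw [stopProb, if_neg h]
  congr

lemma stop_of_some {G : Finset α} (h : (removable I T x y G).Nonempty) :
    ∑ e ∈ removable I T x y G, stopProb I T x y Q (G.erase e) =
      ((removable I T x y G).card : ℝ) * stopProb I T x y Q G := by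
  rw [stopProb, if_pos h, mul_div_cancel₀, sum_attach (removable I T x y G)
    (fun e => stopProb I T x y Q (G.erase e))]
  exact_mod_cast h.card_pos.ne'

/-- averaging over a set that contains the removable edges -/
lemma avg {G F : Finset α} (hF : removable I T x y G ⊆ F) :
    ∑ e ∈ F, stopProb I T x y Q (if e ∈ removable I T x y G then G.erase e else G) =
      (F.card : ℝ) * stopProb I T x y Q G := by
  by_cases h : (removable I T x y G).Nonempty
  · rw [← sum_sdiff hF]
    have h1 : ∑ e ∈ F \ removable I T x y G,
        stopProb I T x y Q (if e ∈ removable I T x y G then G.erase e else G) =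
        ((F \ removable I T x y G).card : ℝ) * stopProb I T x y Q G := by
      rw [← nsmul_eq_mul, ← sum_const]
      apply sum_congr rfl
      intro e he
      rw [if_neg (mem_sdiff.1 he).2]
    have h2 : ∑ e ∈ removable I T x y G,
        stopProb I T x y Q (if e ∈ removable I T x y G then G.erase e else G) =
        ((removable I T x y G).card : ℝ) * stopProb I T x y Q G := by
      rw [← stop_of_some h]
      apply sum_congr rfl
      intro e he
      rw [if_pos he]
    rw [h1, h2, ← add_mul]
    congr 1
    have := card_sdiff_add_card_eq_card hF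
    exact_mod_cast this
  · rw [← nsmul_eq_mul, ← sum_const]
    apply sum_congr rfl
    intro e _
    rw [if_neg (fun he => h ⟨e, he⟩)]

lemma stop_nonneg (G : Finset α) : 0 ≤ stopProb I T x y Q G := by
  classical
  induction hk : G.card using Nat.strong_induction_on generalizing G with
  | _ k ih =>
    by_cases h : (removable I T x y G).Nonempty
    · rw [stopProb, if_pos h]
      apply div_nonneg _ (Nat.cast_nonneg _)
      apply sum_nonneg
      intro e _
      exact ih _ (hk ▸ card_erase_lt_of_mem (mem_of_mem_filter _ e.2)) _ rfl
    · rw [stop_of_none h]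
      split_ifs <;> norm_num

lemma stop_mono {Q' : Finset α → Prop} (hQ : ∀ G, Q G → Q' G) (G : Finset α) :
    stopProb I T x y Q G ≤ stopProb I T x y Q' G := by
  classical
  induction hk : G.card using Nat.strong_induction_on generalizing G with
  | _ k ih =>
    by_cases h : (removable I T x y G).Nonempty
    · rw [stopProb, if_pos h, stopProb, if_pos h]
      apply div_le_div_of_nonneg_right _ (Nat.cast_nonneg _)
      apply sum_le_sum
      intro e _
      exact ih _ (hk ▸ card_erase_lt_of_mem (mem_of_mem_filter _ e.2)) _ rfl
    · rw [stop_of_none h, stop_of_none h]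
      by_cases h1 : Q G
      · rw [if_pos h1, if_pos (hQ G h1)]
      · rw [if_neg h1]
        split_ifs <;> norm_num

/-- union bound, in the form used below -/
lemma stop_union {Q1 Q2 : Finset α → Prop} (hQ : ∀ G, Q G ∨ Q1 G ∨ Q2 G) (G : Finset α) :
    1 ≤ stopProb I T x y Q G + stopProb I T x y Q1 G + stopProb I T x y Q2 G := by
  classical
  induction hk : G.card using Nat.strong_induction_on generalizing G with
  | _ k ih =>
    by_cases h : (removable I T x y G).Nonempty
    · have hc : (0 : ℝ) < ((removable I T x y G).card : ℝ) := by exact_mod_cast h.card_pos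
      have h1 : ((removable I T x y G).card : ℝ) * 1 ≤ ((removable I T x y G).card : ℝ) *
          (stopProb I T x y Q G + stopProb I T x y Q1 G + stopProb I T x y Q2 G) := by
        rw [mul_add, mul_add, ← stop_of_some h, ← stop_of_some h, ← stop_of_some h,
          ← sum_add_distrib, ← sum_add_distrib, ← nsmul_eq_mul, ← sum_const]
        apply sum_le_sum
        intro e he
        exact ih _ (hk ▸ card_erase_lt_of_mem (mem_of_mem_filter _ he)) _ rfl
      exact le_of_mul_le_mul_left h1 hc
    · rw [stop_of_none h, stop_of_none h, stop_of_none h]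
      rcases hQ G with h1 | h1 | h1
      · rw [if_pos h1]
        have : (0 : ℝ) ≤ if Q1 G then 1 else 0 := by split_ifs <;> norm_num
        have : (0 : ℝ) ≤ if Q2 G then 1 else 0 := by split_ifs <;> norm_num
        linarith
      · rw [if_pos h1]
        have : (0 : ℝ) ≤ if Q G then 1 else 0 := by split_ifs <;> norm_num
        have : (0 : ℝ) ≤ if Q2 G then 1 else 0 := by split_ifs <;> norm_num
        linarith
      · rw [if_pos h1]
        have : (0 : ℝ) ≤ if Q G then 1 else 0 := by split_ifs <;> norm_num
        have : (0 : ℝ) ≤ if Q1 G then 1 else 0 := by split_ifs <;> norm_num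
        linarith

lemma removable_comm (G : Finset α) : removable I T x y G = removable T I y x G := by
  unfold removable
  apply filter_congr
  intro e _
  exact and_comm

/-- the two counters play symmetric roles -/
lemma stop_comm (G : Finset α) : stopProb I T x y Q G = stopProb T I y x Q G := by
  classical
  induction hk : G.card using Nat.strong_induction_on generalizing G with
  | _ k ih =>
    by_cases h : (removable I T x y G).Nonempty
    · have h' : (removable T I y x G).Nonempty := removable_comm (I := I) G ▸ h
      have hc : (0 : ℝ) < ((removable I T x y G).card : ℝ) := by exact_mod_cast h.card_pos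
      apply mul_left_cancel₀ hc.ne'
      rw [← stop_of_some h]
      rw [show ((removable I T x y G).card : ℝ) = ((removable T I y x G).card : ℝ) by
        rw [removable_comm], ← stop_of_some h', ← removable_comm]
      apply sum_congr rfl
      intro e he
      exact ih _ (hk ▸ card_erase_lt_of_mem (mem_of_mem_filter _ he)) _ rfl
    · have h' : ¬ (removable T I y x G).Nonempty := removable_comm (I := I) G ▸ h
      rw [stop_of_none h, stop_of_none h']

/-- The hypotheses on the two counters. `B` is a set of edges such that `x ≤ I` as soon as all of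
them are removed, and removing an edge of `B` does not change `T` while each `L a` is alive. -/
structure Setting (α : Type) [DecidableEq α] (I T : Finset α → ℕ) (x : ℕ) (G0 B : Finset α)
    {ι : Type} (A : Finset ι) (L : ι → Finset α) : Prop where
  monoI : ∀ G G' : Finset α, G' ⊆ G → I G ≤ I G'
  monoT : ∀ G G' : Finset α, G' ⊆ G → T G ≤ T G'
  stepI : ∀ (G : Finset α) (e : α), I (G.erase e) ≤ I G + 1
  full : ∀ G : Finset α, G ⊆ G0 → G ∩ B = ∅ → x ≤ I G
  stepT : ∀ (G : Finset α) (e : α), G ⊆ G0 → e ∈ B → (∀ a ∈ A, (G ∩ L a).Nonempty) →
    T (G.erase e) ≤ T G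
  disj : ∀ a ∈ A, Disjoint B (L a)

variable {G0 B : Finset α} {ι : Type} {A : Finset ι} {L : ι → Finset α}

lemma removable_erase (S : Setting α I T x G0 B A L) {G : Finset α} (e : α) :
    removable I T x y (G.erase e) ⊆ (removable I T x y G).erase e := by
  intro f hf
  unfold removable at hf ⊢
  rw [mem_filter] at hf
  rw [mem_erase, mem_filter]
  obtain ⟨h1, h2, h3⟩ := hf
  rw [mem_erase] at h1
  refine ⟨h1.1, h1.2, ?_, ?_⟩
  · refine le_trans (S.monoI _ _ ?_) h2
    exact erase_subset_erase _ (erase_subset _ _)
  · refine le_trans (S.monoT _ _ ?_) h3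
    exact erase_subset_erase _ (erase_subset _ _)

lemma stop_zero (S : Setting α I T x G0 B A L) (G : Finset α) (hG : I G = x) :
    stopProb I T x y (fun G => I G ≠ x) G = 0 := by
  classical
  induction hk : G.card using Nat.strong_induction_on generalizing G with
  | _ k ih =>
    by_cases h : (removable I T x y G).Nonempty
    · have hc : (0 : ℝ) < ((removable I T x y G).card : ℝ) := by exact_mod_cast h.card_pos
      apply mul_left_cancel₀ hc.ne'
      rw [← stop_of_some h, mul_zero]
      apply sum_eq_zero
      intro e he
      have he' := he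
      unfold removable at he'
      rw [mem_filter] at he'
      have h1 : I G ≤ I (G.erase e) := S.monoI _ _ (erase_subset _ _)
      exact ih _ (hk ▸ card_erase_lt_of_mem he'.1) _ (le_antisymm he'.2.1 (by omega)) rfl
    · rw [stop_of_none h, if_neg]
      exact fun hh => hh hG

/-- the potential -/
noncomputable def psi (B L F : Finset α) : ℝ :=
  ((F ∩ B).card : ℝ) / (((F ∩ B).card : ℝ) + ((F ∩ L).card : ℝ))

lemma psi_nonneg (B L F : Finset α) : 0 ≤ psi B L F := by
  unfold psi; positivity

lemma psi_avg (B L F : Finset α) (hd : Disjoint B L) (hB : (F ∩ B).Nonempty)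
    (hL : (F ∩ L).Nonempty) : ∑ e ∈ F, psi B L (F.erase e) = (F.card : ℝ) * psi B L F := by
  set u : ℝ := ((F ∩ B).card : ℝ) with hu
  set v : ℝ := ((F ∩ L).card : ℝ) with hv
  have hu1 : 1 ≤ u := by rw [hu]; exact_mod_cast hB.card_pos
  have hv1 : 1 ≤ v := by rw [hv]; exact_mod_cast hL.card_pos
  have hd' : Disjoint (F ∩ B) (F ∩ L) := hd.mono inter_subset_right inter_subset_right
  have hsplit : F = ((F ∩ B) ∪ (F ∩ L)) ∪ (F \ (B ∪ L)) := by
    ext e
    simp only [mem_union, mem_inter, mem_sdiff]
    tauto
  have hd2 : Disjoint ((F ∩ B) ∪ (F ∩ L)) (F \ (B ∪ L)) := by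
    rw [disjoint_left]
    intro e he he'
    simp only [mem_union, mem_inter, mem_sdiff] at he he'
    tauto
  set w : ℝ := ((F \ (B ∪ L)).card : ℝ) with hw
  have hcard : (F.card : ℝ) = u + v + w := by
    have h1 : F.card = (F ∩ B).card + (F ∩ L).card + (F \ (B ∪ L)).card := by
      conv_lhs => rw [hsplit]
      rw [card_union_of_disjoint hd2, card_union_of_disjoint hd']
    rw [hu, hv, hw, h1]
    push_cast
    ring
  have s1 : ∑ e ∈ F ∩ B, psi B L (F.erase e) = u * ((u - 1) / (u - 1 + v)) := by
    rw [hu, ← nsmul_eq_mul, ← sum_const]
    apply sum_congr rfl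
    intro e he
    unfold psi
    have e1 : F.erase e ∩ B = (F ∩ B).erase e := by
      rw [erase_inter]
    have e2 : F.erase e ∩ L = F ∩ L := by
      rw [erase_inter, erase_eq_of_notMem]
      intro hh
      exact disjoint_left.1 hd' he hh
    rw [e1, e2, card_erase_of_mem he, Nat.cast_sub hB.card_pos]
    push_cast
    rfl
  have s2 : ∑ e ∈ F ∩ L, psi B L (F.erase e) = v * (u / (u + (v - 1))) := by
    rw [hv, ← nsmul_eq_mul, ← sum_const]
    apply sum_congr rfl
    intro e he
    unfold psi
    have e1 : F.erase e ∩ L = (F ∩ L).erase e := by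
      rw [erase_inter]
    have e2 : F.erase e ∩ B = F ∩ B := by
      rw [erase_inter, erase_eq_of_notMem]
      intro hh
      exact disjoint_left.1 hd' hh he
    rw [e1, e2, card_erase_of_mem he, Nat.cast_sub hL.card_pos]
    push_cast
    rfl
  have s3 : ∑ e ∈ F \ (B ∪ L), psi B L (F.erase e) = w * (u / (u + v)) := by
    rw [hw, ← nsmul_eq_mul, ← sum_const]
    apply sum_congr rfl
    intro e he
    rw [mem_sdiff, mem_union] at he
    push Not at he
    unfold psi
    have e1 : F.erase e ∩ L = F ∩ L := by
      rw [erase_inter, erase_eq_of_notMem]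
      intro hh
      exact he.2.2 (mem_inter.1 hh).2
    have e2 : F.erase e ∩ B = F ∩ B := by
      rw [erase_inter, erase_eq_of_notMem]
      intro hh
      exact he.2.1 (mem_inter.1 hh).2
    rw [e1, e2]
  have hpsi : psi B L F = u / (u + v) := rfl
  have hsum : ∑ e ∈ F, psi B L (F.erase e) = ∑ e ∈ F ∩ B, psi B L (F.erase e) +
      ∑ e ∈ F ∩ L, psi B L (F.erase e) + ∑ e ∈ F \ (B ∪ L), psi B L (F.erase e) := by
    conv_lhs => rw [hsplit]
    rw [sum_union hd2, sum_union hd']
    rw [← hsplit]
  rw [hsum, s1, s2, s3, hcard, hpsi]
  have h1 : u + v - 1 ≠ 0 := by linarith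
  have h1' : u - 1 + v ≠ 0 := by linarith
  have h1'' : u + (v - 1) ≠ 0 := by linarith
  have h2 : u + v ≠ 0 := by linarith
  field_simp
  ring

theorem main_bound (S : Setting α I T x G0 B A L) :
    ∀ (k : ℕ) (F G : Finset α), F.card = k → removable I T x y G ⊆ F → F ⊆ G → G ⊆ G0 →
      I G ≤ x → T G ≤ y → (I G = x ∨ G ∩ B ⊆ F) →
      stopProb I T x y (fun G => I G ≠ x) G ≤ ∑ a ∈ A, psi B (L a) F := by
  classical
  intro k
  induction k with
  | zero =>
    intro F G hk _ hFG hG0 hI _ hinv
    have hx : I G = x := by
      rcases hinv with h | h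
      · exact h
      · rw [card_eq_zero] at hk
        rw [hk, subset_empty] at h
        exact le_antisymm hI (S.full G hG0 h)
    rw [stop_zero S G hx]
    exact sum_nonneg fun a _ => psi_nonneg _ _ _
  | succ k ih =>
    intro F G hk hrem hFG hG0 hI hT hinv
    by_cases hx : I G = x
    · rw [stop_zero S G hx]
      exact sum_nonneg fun a _ => psi_nonneg _ _ _
    have hBF : G ∩ B ⊆ F := hinv.resolve_left hx
    have hBne : (F ∩ B).Nonempty := by
      by_contra hcon
      rw [not_nonempty_iff_eq_empty] at hcon
      apply hx
      apply le_antisymm hI (S.full G hG0 _)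
      rw [← subset_empty, ← hcon]
      intro e he
      exact mem_inter.2 ⟨hBF he, (mem_inter.1 he).2⟩
    have hle1 : stopProb I T x y (fun G => I G ≠ x) G ≤ 1 := by
      have : ∀ G : Finset α, stopProb I T x y (fun G => I G ≠ x) G ≤ 1 := by
        intro G
        induction hk : G.card using Nat.strong_induction_on generalizing G with
        | _ k ih =>
          by_cases h : (removable I T x y G).Nonempty
          · have hc : (0 : ℝ) < ((removable I T x y G).card : ℝ) := by exact_mod_cast h.card_pos
            apply le_of_mul_le_mul_left _ hc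
            rw [← stop_of_some h, ← nsmul_eq_mul, ← sum_const]
            apply sum_le_sum
            intro e he
            exact ih _ (hk ▸ card_erase_lt_of_mem (mem_of_mem_filter _ he)) _ rfl
          · rw [stop_of_none h]
            split_ifs <;> norm_num
      exact this G
    by_cases hL : ∀ a ∈ A, (F ∩ L a).Nonempty
    swap
    · push Not at hL
      obtain ⟨a, ha, haL⟩ := hL
      have h1 : psi B (L a) F = 1 := by
        unfold psi
        rw [haL, card_empty, Nat.cast_zero, add_zero, div_self]
        exact_mod_cast hBne.card_pos.ne'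
      calc _ ≤ (1 : ℝ) := hle1
        _ = psi B (L a) F := h1.symm
        _ ≤ _ := single_le_sum (f := fun a => psi B (L a) F) (fun a _ => psi_nonneg _ _ _) ha
    · have hFpos : (0 : ℝ) < (F.card : ℝ) := by
        rw [hk]; positivity
      apply le_of_mul_le_mul_left _ hFpos
      rw [← avg hrem, mul_sum]
      have h2 : ∑ a ∈ A, (F.card : ℝ) * psi B (L a) F = ∑ e ∈ F, ∑ a ∈ A, psi B (L a) (F.erase e) := by
        rw [sum_comm]
        apply sum_congr rfl
        intro a ha
        rw [psi_avg B (L a) F (S.disj a ha) hBne (hL a ha)]
      rw [h2]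
      apply sum_le_sum
      intro e he
      split_ifs with her
      · have her' := her
        unfold removable at her'
        rw [mem_filter] at her'
        apply ih
        · rw [card_erase_of_mem he, hk]; rfl
        · exact (removable_erase S e).trans (erase_subset_erase _ hrem)
        · exact erase_subset_erase _ hFG
        · exact (erase_subset _ _).trans hG0
        · exact her'.2.1
        · exact her'.2.2
        · right
          rw [erase_inter]
          exact erase_subset_erase _ hBF
      · -- the edge is not removable, so it is not in `B`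
        have heB : e ∉ B := by
          intro heB
          apply her
          unfold removable
          rw [mem_filter]
          refine ⟨hFG he, ?_, ?_⟩
          · refine (S.stepI G e).trans ?_
            omega
          · refine (S.stepT G e hG0 heB ?_).trans hT
            intro a ha
            obtain ⟨f, hf⟩ := hL a ha
            rw [mem_inter] at hf
            exact ⟨f, mem_inter.2 ⟨hFG hf.1, hf.2⟩⟩
        apply ih
        · rw [card_erase_of_mem he, hk]; rfl
        · intro f hf
          rw [mem_erase]
          refine ⟨?_, hrem hf⟩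
          rintro rfl
          exact her hf
        · exact (erase_subset _ _).trans hFG
        · exact hG0
        · exact hI
        · exact hT
        · right
          intro f hf
          rw [mem_erase]
          refine ⟨?_, hBF hf⟩
          rintro rfl
          exact heB (mem_inter.1 hf).2

end Q299.Dag
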